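import Pool.Agent.H71.CW.Wid

/-! W1: all nodes have few classes over their complements. -/

set_option autoImplicit false

open Set

namespace Pool.Agent.CW

/-- W1: all nodes have few classes over their complements. -/
theorem pf_W1 : W1 := by
  intro c k W A h
  induction h with
  | sing x hx =>
      refine ⟨Finset.singleton_subset_iff.2 hx, Finset.singleton_nonempty x, fun _ => 0, ?_⟩
      intro a ha a' ha' _ z _
      rw [Finset.coe_singleton, Set.mem_singleton_iff] at ha ha'
      rw [ha, ha']
  | join A B _ _ _ hf ihA ihB =>
      refine ⟨Finset.union_subset ihA.1 ihB.1, ihA.2.1.mono Finset.subset_union_left, ?_⟩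
      obtain ⟨f, hf⟩ := hf
      exact ⟨fun x => (f x).castSucc, fun a ha a' ha' haa =>
        hf a ha a' ha' (Fin.castSucc_injective k haa)⟩

end Pool.Agent.CW
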